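import Pool.Agent.Run7.h444.SC.I

/-!
# Concentration of reflection-invariant sets: invariant functions (helper444)
-/

set_option autoImplicit false

namespace Run7.h444.RC

open MeasureTheory Set Filter Topology Metric
open scoped ENNReal InnerProductSpace
open Pool.Agent.H212R2.KLS (mu Bdd)
open Pool.Agent.H888R2.KT (LC gs pst gc hs key equiv gs_deriv l2step)
open Pool.Agent.H888R2.KT.N9x (W W_le W_eq int_cont mass_pos grad_cont)
open Pool.Agent.R754.KG (E un)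
open Pool.Agent.R755.KF (BL PB)
open Pool.Agent.R755.KF.T36
open Pool.Agent.N483.KM (po LCI CR)
open Run7.h444.SC (Vr Dr sm pstR med)

/-- log-concave densities which are marginals of uniform measures -/
structure LB {k : ℕ} (ρ : E k → ℝ) : Prop where
  lc : LC ρ
  lci : LCI (mu ρ)

variable {k : ℕ} {ρ : E k → ℝ}

theorem LB.pb (hρ : LB ρ) : ∃ B : ℝ, 0 ≤ B ∧ PB B (mu ρ) :=
  (Pool.Agent.N483.KM.lciR k (mu ρ) hρ.lci).2.2

theorem LB.prob (hρ : LB ρ) : IsProbabilityMeasure (mu ρ) := by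
  obtain ⟨B, -, hB⟩ := hρ.pb
  exact hB.prob

theorem LB.real (hρ : LB ρ) : (mu ρ).real univ = 1 := by
  have := hρ.prob
  simp

theorem sm_props (hρ : LB ρ) {h a C0 L : ℝ} (hh : 0 < h) (ha : 0 < a) {f : E k → ℝ}
    (hf : BL C0 f) (hfa : ∀ y, |f y| ≤ a) (hL : 0 ≤ L) (hfL : ∀ y, ‖fderiv ℝ f y‖ ≤ L) :
    ContDiff ℝ 1 (sm h ρ f) ∧ (∀ y, |sm h ρ f y| ≤ a) ∧
    (∀ y, ‖fderiv ℝ (sm h ρ f) y‖ ≤ a / Real.sqrt h) := by
  obtain ⟨B, hB0, hν⟩ := hρ.pb
  have hprob := hν.prob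
  obtain ⟨hF1, hF2, hF3, hF4, hF5⟩ := pstR k (mu ρ) h a C0 f hρ.lci hh ha hf hfa
  have hfc : Continuous f := hf.c1.continuous
  have hf2c : Continuous fun x => f x ^ 2 := hfc.pow 2
  have hf2b : ∀ x, f x ^ 2 ≤ a ^ 2 := fun x => by
    rw [← sq_abs]
    exact pow_le_pow_left₀ (abs_nonneg _) (hfa x) 2
  obtain ⟨F, hFdef⟩ : ∃ F, F = po h (mu ρ) f := ⟨_, rfl⟩
  have hsm : sm h ρ f = gs h F := by rw [hFdef]; rfl
  rw [← hFdef] at hF1 hF2 hF3 hF4
  have hFc : Continuous F := hF1.continuous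
  have hsq : 0 < Real.sqrt h := Real.sqrt_pos.2 hh
  have hL0 : 0 ≤ a / Real.sqrt h := by positivity
  have hPb : ∀ y, po h (mu ρ) (fun x => f x ^ 2) y ≤ a ^ 2 := fun y =>
    Pool.Agent.N342.KM.po_le hν hf2c (sq_nonneg _) hf2b y
  have hDF : ∀ y, ‖fderiv ℝ F y‖ ≤ a / Real.sqrt h := by
    intro y
    have e1 := hF3 y
    have e2 := hPb y
    have e3 : h * ‖fderiv ℝ F y‖ ^ 2 ≤ a ^ 2 := by nlinarith [sq_nonneg (F y)]
    have e4 : ‖fderiv ℝ F y‖ ^ 2 ≤ (a / Real.sqrt h) ^ 2 := by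
      rw [div_pow, Real.sq_sqrt hh.le, le_div_iff₀ hh]
      linarith
    exact (abs_le_of_sq_le_sq' e4 hL0).2
  have hBL : BL (max a (a / Real.sqrt h)) F :=
    ⟨hF1, fun y => (hF2 y).trans (le_max_left _ _), fun y => (hDF y).trans (le_max_right _ _)⟩
  have hg := gs_deriv h hh F hBL.c1 (max a (a / Real.sqrt h)) hBL.bd hBL.gd
  rw [hsm]
  exact ⟨hg.1, fun y => Pool.Agent.R755.KF.T6aux.gs_le_bd hh hFc hF2 y,
    fun y => Pool.Agent.R755.KF.T6aux.grad_le hh hBL hL0 hDF y⟩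

theorem Vr_le (hρ : LB ρ) {f : E k → ℝ} (hf : Continuous f) (c : ℝ) :
    Vr (mu ρ) f ≤ ∫ x, (f x - c) ^ 2 ∂(mu ρ) := by
  have h1 := W_le hρ.lc hf c
  unfold W at h1
  rw [hρ.real, div_one] at h1
  exact h1

theorem sm_step (hρ : LB ρ) {h : ℝ} (hh : 0 < h) {u : E k → ℝ} (hu : ContDiff ℝ 1 u) :
    Vr (mu ρ) u ≤ Vr (mu ρ) (sm h ρ u) + 2 * h * Dr (mu ρ) u := by
  obtain ⟨h4, h5⟩ := l2step hρ.lc h hh u hu
  unfold Vr Dr sm
  rw [h4]
  linarith

/-- functions which are invariant under a family of maps -/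
def Inv {k q : ℕ} (g : Fin q → E k ≃ₗᵢ[ℝ] E k) (f : E k → ℝ) : Prop := ∀ j x, f (g j x) = f x

/-- concentration of invariant sets -/
def SymG {k q : ℕ} (g : Fin q → E k ≃ₗᵢ[ℝ] E k) (ν : Measure (E k)) (p r : ℝ) : Prop :=
  ∀ S : Set (E k), MeasurableSet S → (∀ j x, x ∈ S → g j x ∈ S) → 1 / 2 ≤ ν.real S →
    1 - p ≤ ν.real (thickening r S)

variable {q : ℕ} {g : Fin q → E k ≃ₗᵢ[ℝ] E k}

theorem sm_inv (hρ : LB ρ) (hg : Inv g ρ) (h : ℝ) {u : E k → ℝ} (hu : Inv g u) :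
    Inv g (sm h ρ u) := fun j x => equiv hρ.lc h (g j) (hg j) u (hu j) x

/-- invariant Lipschitz functions have small variance -/
theorem inv_lip (hρ : LB ρ) {p r L : ℝ} (hS : SymG g (mu ρ) p r)
    (hL : 0 ≤ L) {f : E k → ℝ} (hf : ContDiff ℝ 1 f) (h1 : ∀ x, |f x| ≤ 1)
    (hfL : ∀ x, ‖fderiv ℝ f x‖ ≤ L) (he : Inv g f) :
    Vr (mu ρ) f ≤ (L * r) ^ 2 + 8 * p := by
  obtain ⟨B, hB0, hν⟩ := hρ.pb
  have hprob := hν.prob
  have hfc := hf.continuous
  obtain ⟨m, hm, h2, h3⟩ := med hν hfc h1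
  have hlip : ∀ x y, |f x - f y| ≤ L * dist x y := by
    intro x y
    have := convex_univ.norm_image_sub_le_of_norm_fderiv_le (𝕜 := ℝ) (f := f)
      (fun z _ => (hf.differentiable (by norm_num)) z) (fun z _ => hfL z) (mem_univ y) (mem_univ x)
    rw [Real.norm_eq_abs, ← dist_eq_norm] at this
    exact this
  have ms1 : MeasurableSet {x | f x ≤ m} := measurableSet_le hfc.measurable measurable_const
  have ms2 : MeasurableSet {x | m ≤ f x} := measurableSet_le measurable_const hfc.measurable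
  have c1 := hS _ ms1 (fun j x hx => by
    have hx' : f x ≤ m := hx
    show f (g j x) ≤ m
    rw [he]; exact hx') h2
  have c2 := hS _ ms2 (fun j x hx => by
    have hx' : m ≤ f x := hx
    show m ≤ f (g j x)
    rw [he]; exact hx') h3
  obtain ⟨T1, hT1⟩ : ∃ T, T = thickening r {x | f x ≤ m} := ⟨_, rfl⟩
  obtain ⟨T2, hT2⟩ : ∃ T, T = thickening r {x | m ≤ f x} := ⟨_, rfl⟩
  rw [← hT1] at c1
  rw [← hT2] at c2
  have mT1 : MeasurableSet T1 := by rw [hT1]; exact isOpen_thickening.measurableSet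
  have mT2 : MeasurableSet T2 := by rw [hT2]; exact isOpen_thickening.measurableSet
  have b1 : ∀ x ∈ T1, f x - m ≤ L * r := by
    intro x hx
    rw [hT1] at hx
    obtain ⟨y, hy, hxy⟩ := mem_thickening_iff.1 hx
    have hy' : f y ≤ m := hy
    have h5 := (abs_le.1 (hlip x y)).2
    have h6 : L * dist x y ≤ L * r := mul_le_mul_of_nonneg_left hxy.le hL
    linarith
  have b2 : ∀ x ∈ T2, m - f x ≤ L * r := by
    intro x hx
    rw [hT2] at hx
    obtain ⟨y, hy, hxy⟩ := mem_thickening_iff.1 hx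
    have hy' : m ≤ f y := hy
    have h5 := (abs_le.1 (hlip x y)).1
    have h6 : L * dist x y ≤ L * r := mul_le_mul_of_nonneg_left hxy.le hL
    linarith
  have n1 : (mu ρ).real T1ᶜ ≤ p := by
    have := measureReal_add_measureReal_compl (μ := mu ρ) mT1
    simp only [probReal_univ] at this
    linarith
  have n2 : (mu ρ).real T2ᶜ ≤ p := by
    have := measureReal_add_measureReal_compl (μ := mu ρ) mT2
    simp only [probReal_univ] at this
    linarith
  refine (Vr_le hρ hfc m).trans ?_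
  have hi1 : Integrable (fun x => (f x - m) ^ 2) (mu ρ) :=
    int_cont hρ.lc ((hfc.sub continuous_const).pow 2)
  have hb : ∀ x, (f x - m) ^ 2 ≤ (L * r) ^ 2 + T1ᶜ.indicator (fun _ => (4 : ℝ)) x +
      T2ᶜ.indicator (fun _ => (4 : ℝ)) x := by
    intro x
    have hx4 : (f x - m) ^ 2 ≤ 4 := by
      have a1 := abs_le.1 (h1 x)
      have a2 := abs_le.1 hm
      nlinarith
    have hLr : 0 ≤ (L * r) ^ 2 := sq_nonneg _
    have i1 : 0 ≤ T1ᶜ.indicator (fun _ => (4 : ℝ)) x := indicator_nonneg (fun _ _ => by norm_num) x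
    have i2 : 0 ≤ T2ᶜ.indicator (fun _ => (4 : ℝ)) x := indicator_nonneg (fun _ _ => by norm_num) x
    by_cases hx1 : x ∈ T1
    · by_cases hx2 : x ∈ T2
      · have h5 := b1 x hx1
        have h6 := b2 x hx2
        have h7 : (f x - m) ^ 2 ≤ (L * r) ^ 2 := by
          rw [← sq_abs (f x - m)]
          refine pow_le_pow_left₀ (abs_nonneg _) ?_ 2
          rw [abs_le]
          constructor <;> linarith
        linarith
      · have e : T2ᶜ.indicator (fun _ => (4 : ℝ)) x = 4 := indicator_of_mem (by exact hx2) _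
        rw [e]
        linarith
    · have e : T1ᶜ.indicator (fun _ => (4 : ℝ)) x = 4 := indicator_of_mem (by exact hx1) _
      rw [e]
      linarith
  have j1 : Integrable (T1ᶜ.indicator fun _ => (4 : ℝ)) (mu ρ) :=
    (integrable_const _).indicator mT1.compl
  have j2 : Integrable (T2ᶜ.indicator fun _ => (4 : ℝ)) (mu ρ) :=
    (integrable_const _).indicator mT2.compl
  have j0 : Integrable (fun x => (L * r) ^ 2 + T1ᶜ.indicator (fun _ => (4 : ℝ)) x) (mu ρ) :=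
    (integrable_const _).add j1
  have j3 : Integrable (fun x => (L * r) ^ 2 + T1ᶜ.indicator (fun _ => (4 : ℝ)) x +
      T2ᶜ.indicator (fun _ => (4 : ℝ)) x) (mu ρ) := j0.add j2
  refine (integral_mono hi1 j3 hb).trans ?_
  have e1 : ∫ x, ((L * r) ^ 2 + T1ᶜ.indicator (fun _ => (4 : ℝ)) x +
      T2ᶜ.indicator (fun _ => (4 : ℝ)) x) ∂(mu ρ) =
      (∫ x, ((L * r) ^ 2 + T1ᶜ.indicator (fun _ => (4 : ℝ)) x) ∂(mu ρ)) +
        ∫ x, T2ᶜ.indicator (fun _ => (4 : ℝ)) x ∂(mu ρ) := integral_add j0 j2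
  have e2 : ∫ x, ((L * r) ^ 2 + T1ᶜ.indicator (fun _ => (4 : ℝ)) x) ∂(mu ρ) =
      (∫ _x, (L * r) ^ 2 ∂(mu ρ)) + ∫ x, T1ᶜ.indicator (fun _ => (4 : ℝ)) x ∂(mu ρ) :=
    integral_add (integrable_const _) j1
  rw [e1, e2, integral_indicator mT1.compl, integral_indicator mT2.compl, setIntegral_const,
    setIntegral_const, integral_const]
  simp only [probReal_univ, smul_eq_mul, one_mul]
  linarith

/-- weak Poincare inequality for invariant functions -/
theorem inv_weak (hρ : LB ρ) (hg : Inv g ρ) {p r h C0 : ℝ} (hS : SymG g (mu ρ) p r)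
    (hh : 0 < h) {f : E k → ℝ} (hf : BL C0 f) (h1 : ∀ x, |f x| ≤ 1) (he : Inv g f) :
    Vr (mu ρ) f ≤ r ^ 2 / h + 8 * p + 2 * h * Dr (mu ρ) f := by
  have hC0 : 0 ≤ C0 := (abs_nonneg _).trans (hf.bd 0)
  obtain ⟨g1, g2, g3⟩ := sm_props hρ hh one_pos hf h1 hC0 hf.gd
  have h3 := sm_step hρ hh hf.c1
  have h4 := inv_lip hρ hS (L := 1 / Real.sqrt h) (by positivity) g1 g2 g3
    (sm_inv hρ hg h he)
  have e : (1 / Real.sqrt h * r) ^ 2 = r ^ 2 / h := by
    rw [mul_pow, div_pow, Real.sq_sqrt hh.le]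
    ring
  rw [e] at h4
  linarith

end Run7.h444.RC
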