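import Pool.Agent.Run7.h444.RC.B

/-!
# Functions which are odd under a reflection (helper444)
-/

set_option autoImplicit false

namespace Run7.h444.RC

open MeasureTheory Set Filter Topology
open scoped ENNReal InnerProductSpace
open Pool.Agent.H212R2.KLS (mu Bdd)
open Pool.Agent.H888R2.KT (LC)
open Pool.Agent.H888R2.KT.N9x (int_cont grad_cont)
open Pool.Agent.R754.KG (E un)
open Run7.h444.SC (Vr Dr)

variable {k : ℕ} {ρ : E k → ℝ}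

/-- the reflection in the hyperplane orthogonal to the unit vector `e` -/
theorem refl_ex (e : E k) (he : ‖e‖ = 1) : ∃ g : E k ≃ₗᵢ[ℝ] E k, ∀ x, g x = x - (2 * ⟪e, x⟫_ℝ) • e := by
  obtain ⟨f, hf⟩ : ∃ f : E k →ₗ[ℝ] E k, ∀ x, f x = x - (2 * ⟪e, x⟫_ℝ) • e :=
    ⟨{ toFun := fun x => x - (2 * ⟪e, x⟫_ℝ) • e
       map_add' := fun x y => by
        rw [inner_add_right, mul_add, add_smul]
        abel
       map_smul' := fun c x => by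
        rw [inner_smul_right, RingHom.id_apply, smul_sub, smul_smul]
        congr 2
        ring }, fun x => rfl⟩
  have hee : ⟪e, e⟫_ℝ = 1 := by rw [real_inner_self_eq_norm_sq, he]; norm_num
  have hinv : Function.Involutive f := by
    intro x
    rw [hf, hf, inner_sub_right, inner_smul_right, hee]
    module
  refine ⟨⟨LinearEquiv.ofInvolutive f hinv, fun x => ?_⟩, fun x => hf x⟩
  have h1 : (LinearEquiv.ofInvolutive f hinv) x = f x := rfl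
  rw [h1, hf]
  have h2 : ‖x - (2 * ⟪e, x⟫_ℝ) • e‖ ^ 2 = ‖x‖ ^ 2 := by
    rw [norm_sub_sq_real, inner_smul_right, norm_smul, mul_pow, he, real_inner_comm,
      Real.norm_eq_abs, sq_abs]
    ring
  exact (sq_eq_sq₀ (norm_nonneg _) (norm_nonneg _)).1 h2

theorem ray (hρ : LC ρ) {e : E k}
    (hinv : ∀ x, ρ (x - (2 * ⟪e, x⟫_ℝ) • e) = ρ x) {x : E k} {u : ℝ} (hu : 0 < u)
    (hux : u < ⟪e, x⟫_ℝ) : ρ x ≤ ρ (x - u • e) := by
  rcases (hρ.nonneg x).eq_or_lt with h0 | h0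
  · rw [← h0]
    exact hρ.nonneg _
  have ha : 0 < ⟪e, x⟫_ℝ := hu.trans hux
  obtain ⟨a, had⟩ : ∃ a, a = ⟪e, x⟫_ℝ := ⟨_, rfl⟩
  rw [← had] at ha hux
  obtain ⟨t, ht⟩ : ∃ t, t = u / (2 * a) := ⟨_, rfl⟩
  have ht0 : 0 < t := by rw [ht]; positivity
  have ht1 : t < 1 := by
    rw [ht, div_lt_one (by positivity)]
    linarith
  have h1 := hρ.logc x (x - (2 * ⟪e, x⟫_ℝ) • e) t ht0 ht1
  rw [hinv, ← Real.rpow_add h0, sub_add_cancel, Real.rpow_one] at h1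
  have h2 : (1 - t) • x + t • (x - (2 * ⟪e, x⟫_ℝ) • e) = x - u • e := by
    rw [← had]
    have h3 : t * (2 * a) = u := by rw [ht]; field_simp
    rw [smul_sub, smul_smul, h3]
    module
  rwa [h2] at h1

/-- the fundamental theorem of calculus towards the hyperplane -/
theorem ftc {e : E k} {f : E k → ℝ} (hf : ContDiff ℝ 1 f) (he : ‖e‖ = 1)
    (hodd : ∀ x, f (x - (2 * ⟪e, x⟫_ℝ) • e) = -f x) {x : E k} (hx : 0 < ⟪e, x⟫_ℝ) :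
    ‖f x‖ₑ ≤ ∫⁻ u in Ioo 0 ⟪e, x⟫_ℝ, ‖fderiv ℝ f (x - u • e)‖ₑ := by
  obtain ⟨a, had⟩ : ∃ a, a = ⟪e, x⟫_ℝ := ⟨_, rfl⟩
  have hee : ⟪e, e⟫_ℝ = 1 := by rw [real_inner_self_eq_norm_sq, he]; norm_num
  have h0 : f (x - a • e) = 0 := by
    have h1 := hodd (x - a • e)
    have h2 : ⟪e, x - a • e⟫_ℝ = 0 := by
      rw [inner_sub_right, inner_smul_right, hee, had]
      ring
    rw [h2, mul_zero, zero_smul, sub_zero] at h1
    linarith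
  have hd : ∀ u : ℝ, HasDerivAt (fun u : ℝ => f (x - u • e)) (-(fderiv ℝ f (x - u • e) e)) u := by
    intro u
    have h1 : HasFDerivAt f (fderiv ℝ f (x - u • e)) (x - u • e) :=
      (hf.differentiable (by norm_num) _).hasFDerivAt
    have h2 : HasDerivAt (fun u : ℝ => x - u • e) (-e) u := by
      have := ((hasDerivAt_id u).smul_const e).const_sub x
      simpa using this
    have h3 := h1.comp_hasDerivAt u h2
    rw [map_neg] at h3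
    exact h3
  have hc : Continuous fun u : ℝ => -(fderiv ℝ f (x - u • e) e) :=
    (((hf.continuous_fderiv (by norm_num)).comp (by fun_prop : Continuous fun u : ℝ => x - u • e)).clm_apply
      continuous_const).neg
  have h1 := intervalIntegral.integral_eq_sub_of_hasDerivAt (a := 0) (b := a) (fun u _ => hd u)
    (hc.intervalIntegrable _ _)
  rw [h0, zero_smul, sub_zero, zero_sub] at h1
  rw [← had] at hx ⊢
  have h2 : ‖f x‖ₑ = ‖∫ u in Ioc 0 a, -(fderiv ℝ f (x - u • e) e)‖ₑ := by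
    rw [← intervalIntegral.integral_of_le hx.le, h1, enorm_neg]
  rw [h2]
  refine (enorm_integral_le_lintegral_enorm _).trans ?_
  rw [← setLIntegral_congr Ioo_ae_eq_Ioc]
  refine lintegral_mono fun u => ?_
  rw [enorm_neg]
  have h3 := (fderiv ℝ f (x - u • e)).le_opNorm e
  rw [he, mul_one] at h3
  rw [← ofReal_norm, ← ofReal_norm]
  exact ENNReal.ofReal_le_ofReal h3

theorem half_odd (hρ : LC ρ) {e : E k} (he : ‖e‖ = 1)
    (hinv : ∀ x, ρ (x - (2 * ⟪e, x⟫_ℝ) • e) = ρ x) {f : E k → ℝ} (hf : ContDiff ℝ 1 f)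
    (hodd : ∀ x, f (x - (2 * ⟪e, x⟫_ℝ) • e) = -f x) {T : ℝ} (hT : 0 < T) :
    ∫⁻ x in {x | 0 < ⟪e, x⟫_ℝ ∧ ⟪e, x⟫_ℝ ≤ T}, ‖f x‖ₑ ∂(mu ρ) ≤
      ENNReal.ofReal T * ∫⁻ x in {x | 0 < ⟪e, x⟫_ℝ}, ‖fderiv ℝ f x‖ₑ ∂(mu ρ) := by
  have hic : Continuous fun x : E k => ⟪e, x⟫_ℝ := by fun_prop
  have hm : Measurable fun x : E k => ⟪e, x⟫_ℝ := hic.measurable
  have hfm : Measurable fun x : E k => ‖f x‖ₑ := hf.continuous.measurable.enorm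
  have hdm : Measurable fun x : E k => ‖fderiv ℝ f x‖ₑ :=
    (hf.continuous_fderiv (by norm_num)).measurable.enorm
  have hρm : Measurable fun x : E k => ENNReal.ofReal (ρ x) := hρ.meas.ennreal_ofReal
  have m1 : MeasurableSet {x : E k | 0 < ⟪e, x⟫_ℝ} := measurableSet_lt measurable_const hm
  have m2 : MeasurableSet {x : E k | 0 < ⟪e, x⟫_ℝ ∧ ⟪e, x⟫_ℝ ≤ T} :=
    m1.inter (measurableSet_le hm measurable_const)
  obtain ⟨Φ, hΦ⟩ : ∃ Φ : E k → ℝ≥0∞, Φ = {y : E k | 0 < ⟪e, y⟫_ℝ}.indicator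
    fun y => ENNReal.ofReal (ρ y) * ‖fderiv ℝ f y‖ₑ := ⟨_, rfl⟩
  have hΦm : Measurable Φ := by
    rw [hΦ]
    exact (hρm.mul hdm).indicator m1
  have hJ : ∫⁻ x in {x | 0 < ⟪e, x⟫_ℝ}, ‖fderiv ℝ f x‖ₑ ∂(mu ρ) = ∫⁻ y, Φ y := by
    unfold mu
    rw [← lintegral_indicator m1, lintegral_withDensity_eq_lintegral_mul _ hρm
      (hdm.indicator m1), hΦ]
    refine lintegral_congr fun y => ?_
    by_cases hy : y ∈ {y : E k | 0 < ⟪e, y⟫_ℝ}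
    · simp only [Pi.mul_apply, indicator_of_mem hy]
    · simp only [Pi.mul_apply, indicator_of_notMem hy, mul_zero]
  have hL : ∫⁻ x in {x | 0 < ⟪e, x⟫_ℝ ∧ ⟪e, x⟫_ℝ ≤ T}, ‖f x‖ₑ ∂(mu ρ) ≤
      ∫⁻ x : E k, ∫⁻ u in Ioc 0 T, Φ (x - u • e) := by
    unfold mu
    rw [← lintegral_indicator m2, lintegral_withDensity_eq_lintegral_mul _ hρm
      (hfm.indicator m2)]
    refine lintegral_mono fun x => ?_
    by_cases hx : x ∈ {x : E k | 0 < ⟪e, x⟫_ℝ ∧ ⟪e, x⟫_ℝ ≤ T}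
    · simp only [Pi.mul_apply, indicator_of_mem hx]
      obtain ⟨hx1, hx2⟩ := hx
      have h1 := ftc hf he hodd hx1
      have hme : Measurable fun u : ℝ => ‖fderiv ℝ f (x - u • e)‖ₑ :=
        hdm.comp (by fun_prop : Continuous fun u : ℝ => x - u • e).measurable
      calc ENNReal.ofReal (ρ x) * ‖f x‖ₑ
          ≤ ENNReal.ofReal (ρ x) * ∫⁻ u in Ioo 0 ⟪e, x⟫_ℝ, ‖fderiv ℝ f (x - u • e)‖ₑ :=
            mul_le_mul_right h1 _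
        _ = ∫⁻ u in Ioo 0 ⟪e, x⟫_ℝ, ENNReal.ofReal (ρ x) * ‖fderiv ℝ f (x - u • e)‖ₑ := by
            rw [lintegral_const_mul _ hme]
        _ ≤ ∫⁻ u in Ioo 0 ⟪e, x⟫_ℝ, Φ (x - u • e) := by
            refine setLIntegral_mono' measurableSet_Ioo fun u hu => ?_
            have hee : ⟪e, e⟫_ℝ = 1 := by rw [real_inner_self_eq_norm_sq, he]; norm_num
            have hy : x - u • e ∈ {y : E k | 0 < ⟪e, y⟫_ℝ} := by
              show 0 < ⟪e, x - u • e⟫_ℝ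
              rw [inner_sub_right, inner_smul_right, hee]
              linarith [hu.2]
            rw [hΦ, indicator_of_mem hy]
            exact mul_le_mul_left (ENNReal.ofReal_le_ofReal (ray hρ hinv hu.1 hu.2)) _
        _ ≤ _ := lintegral_mono_set fun u (hu : u ∈ Ioo 0 ⟪e, x⟫_ℝ) =>
            (⟨hu.1, hu.2.le.trans hx2⟩ : u ∈ Ioc 0 T)
    · simp only [Pi.mul_apply, indicator_of_notMem hx, mul_zero]
      exact bot_le
  refine hL.trans ?_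
  rw [lintegral_lintegral_swap]
  · have h1 : ∀ u : ℝ, ∫⁻ x : E k, Φ (x - u • e) = ∫⁻ y, Φ y := fun u =>
      lintegral_sub_right_eq_self Φ (u • e)
    simp only [h1]
    rw [setLIntegral_const, Real.volume_Ioc, sub_zero, hJ, mul_comm]
  · exact (hΦm.comp (by fun_prop : Continuous fun z : E k × ℝ => z.1 - z.2 • e).measurable).aemeasurable

/-- Cauchy–Schwarz -/
theorem cs (hρ : LC ρ) {a b : E k → ℝ} (ha : Continuous a) (hb : Continuous b) :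
    (∫ x, a x * b x ∂(mu ρ)) ^ 2 ≤ (∫ x, a x ^ 2 ∂(mu ρ)) * ∫ x, b x ^ 2 ∂(mu ρ) := by
  have hq : ∀ t : ℝ, 0 ≤ (∫ x, a x ^ 2 ∂(mu ρ)) * (t * t) + (-(2 * ∫ x, a x * b x ∂(mu ρ))) * t +
      ∫ x, b x ^ 2 ∂(mu ρ) := by
    intro t
    have i1 : Integrable (fun x => t ^ 2 * a x ^ 2) (mu ρ) := (int_cont hρ (ha.pow 2)).const_mul _
    have i2 : Integrable (fun x => 2 * t * (a x * b x)) (mu ρ) :=
      (int_cont hρ (ha.mul hb)).const_mul _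
    have i3 : Integrable (fun x => b x ^ 2) (mu ρ) := int_cont hρ (hb.pow 2)
    have h1 : 0 ≤ ∫ x, (t * a x - b x) ^ 2 ∂(mu ρ) := integral_nonneg fun x => sq_nonneg _
    have e : (fun x => (t * a x - b x) ^ 2) =
        fun x => (t ^ 2 * a x ^ 2 - 2 * t * (a x * b x)) + b x ^ 2 := by
      funext x; ring
    have e1 : ∫ x, ((t ^ 2 * a x ^ 2 - 2 * t * (a x * b x)) + b x ^ 2) ∂(mu ρ) =
        (∫ x, (t ^ 2 * a x ^ 2 - 2 * t * (a x * b x)) ∂(mu ρ)) + ∫ x, b x ^ 2 ∂(mu ρ) :=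
      integral_add (i1.sub i2) i3
    have e2 : ∫ x, (t ^ 2 * a x ^ 2 - 2 * t * (a x * b x)) ∂(mu ρ) =
        (∫ x, t ^ 2 * a x ^ 2 ∂(mu ρ)) - ∫ x, 2 * t * (a x * b x) ∂(mu ρ) := integral_sub i1 i2
    rw [e, e1, e2, integral_const_mul, integral_const_mul] at h1
    linarith
  have h := discrim_le_zero hq
  unfold discrim at h
  linarith

/-- the mean of `|f|` for odd `f` -/
theorem odd_mean (hρ : LB ρ) {e : E k} (he : ‖e‖ = 1)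
    (hinv : ∀ x, ρ (x - (2 * ⟪e, x⟫_ℝ) • e) = ρ x) {f : E k → ℝ} (hf : ContDiff ℝ 1 f)
    (hodd : ∀ x, f (x - (2 * ⟪e, x⟫_ℝ) • e) = -f x) {T s : ℝ} (hT : 0 < T)
    (hs : ∫ x, ⟪e, x⟫_ℝ ^ 2 ∂(mu ρ) ≤ s) :
    (∫ x, |f x| ∂(mu ρ)) ^ 2 ≤ 2 * T ^ 2 * Dr (mu ρ) f + 2 * s / T ^ 2 * ∫ x, f x ^ 2 ∂(mu ρ) := by
  have hprob := hρ.prob
  have hfc := hf.continuous
  have hdc : Continuous fun x => ‖fderiv ℝ f x‖ := (hf.continuous_fderiv (by norm_num)).norm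
  have hic : Continuous fun x : E k => ⟪e, x⟫_ℝ := by fun_prop
  have hm : Measurable fun x : E k => ⟪e, x⟫_ℝ := hic.measurable
  have m1 : MeasurableSet {x : E k | 0 < ⟪e, x⟫_ℝ} := measurableSet_lt measurable_const hm
  have m2 : MeasurableSet {x : E k | 0 < ⟪e, x⟫_ℝ ∧ ⟪e, x⟫_ℝ ≤ T} :=
    m1.inter (measurableSet_le hm measurable_const)
  have if1 : Integrable (fun x => |f x|) (mu ρ) := int_cont hρ.lc hfc.abs
  have id1 : Integrable (fun x => ‖fderiv ℝ f x‖) (mu ρ) := int_cont hρ.lc hdc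
  have conv : ∀ e' : E k, ‖e'‖ = 1 → (∀ x, ρ (x - (2 * ⟪e', x⟫_ℝ) • e') = ρ x) →
      (∀ x, f (x - (2 * ⟪e', x⟫_ℝ) • e') = -f x) →
      ∫ x in {x | 0 < ⟪e', x⟫_ℝ ∧ ⟪e', x⟫_ℝ ≤ T}, |f x| ∂(mu ρ) ≤
        T * ∫ x in {x | 0 < ⟪e', x⟫_ℝ}, ‖fderiv ℝ f x‖ ∂(mu ρ) := by
    intro e' h1 h2 h3
    have h4 := half_odd hρ.lc h1 h2 hf h3 hT
    have e1 : ∀ S : Set (E k), ∫⁻ x in S, ‖f x‖ₑ ∂(mu ρ) =
        ENNReal.ofReal (∫ x in S, |f x| ∂(mu ρ)) := by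
      intro S
      rw [ofReal_integral_eq_lintegral_ofReal if1.integrableOn
        (Filter.Eventually.of_forall fun x => abs_nonneg _)]
      refine lintegral_congr fun x => ?_
      rw [← ofReal_norm, Real.norm_eq_abs]
    have e2 : ∀ S : Set (E k), ∫⁻ x in S, ‖fderiv ℝ f x‖ₑ ∂(mu ρ) =
        ENNReal.ofReal (∫ x in S, ‖fderiv ℝ f x‖ ∂(mu ρ)) := by
      intro S
      rw [ofReal_integral_eq_lintegral_ofReal id1.integrableOn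
        (Filter.Eventually.of_forall fun x => norm_nonneg _)]
      refine lintegral_congr fun x => ?_
      rw [← ofReal_norm]
    rw [e1, e2, ← ENNReal.ofReal_mul hT.le, ENNReal.ofReal_le_ofReal_iff
      (mul_nonneg hT.le (integral_nonneg fun x => norm_nonneg _))] at h4
    exact h4
  have c1 := conv e he hinv hodd
  have hneg : ∀ x : E k, x - (2 * ⟪-e, x⟫_ℝ) • (-e) = x - (2 * ⟪e, x⟫_ℝ) • e := by
    intro x
    rw [inner_neg_left]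
    congr 1
    module
  have c2 := conv (-e) (by rw [norm_neg, he]) (fun x => by rw [hneg, hinv])
    (fun x => by rw [hneg, hodd])
  have hm' : Measurable fun x : E k => ⟪-e, x⟫_ℝ :=
    (by fun_prop : Continuous fun x : E k => ⟪-e, x⟫_ℝ).measurable
  have m1' : MeasurableSet {x : E k | 0 < ⟪-e, x⟫_ℝ} := measurableSet_lt measurable_const hm'
  have m2' : MeasurableSet {x : E k | 0 < ⟪-e, x⟫_ℝ ∧ ⟪-e, x⟫_ℝ ≤ T} :=
    m1'.inter (measurableSet_le hm' measurable_const)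
  have hdisj : Disjoint {x : E k | 0 < ⟪e, x⟫_ℝ} {x : E k | 0 < ⟪-e, x⟫_ℝ} := by
    rw [Set.disjoint_left]
    intro x hx hx'
    have h1 : 0 < ⟪e, x⟫_ℝ := hx
    have h2 : 0 < ⟪-e, x⟫_ℝ := hx'
    rw [inner_neg_left] at h2
    linarith
  have hgr : (∫ x in {x | 0 < ⟪e, x⟫_ℝ}, ‖fderiv ℝ f x‖ ∂(mu ρ)) +
      ∫ x in {x | 0 < ⟪-e, x⟫_ℝ}, ‖fderiv ℝ f x‖ ∂(mu ρ) ≤ ∫ x, ‖fderiv ℝ f x‖ ∂(mu ρ) := by
    rw [← setIntegral_union hdisj m1' id1.integrableOn id1.integrableOn]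
    exact setIntegral_le_integral id1 (Filter.Eventually.of_forall fun x => norm_nonneg _)
  -- the pointwise bound
  have ix : Integrable (fun x => |⟪e, x⟫_ℝ| * |f x|) (mu ρ) := int_cont hρ.lc (hic.abs.mul hfc.abs)
  have i1 : Integrable ({x : E k | 0 < ⟪e, x⟫_ℝ ∧ ⟪e, x⟫_ℝ ≤ T}.indicator fun x => |f x|) (mu ρ) :=
    if1.indicator m2
  have i2 : Integrable ({x : E k | 0 < ⟪-e, x⟫_ℝ ∧ ⟪-e, x⟫_ℝ ≤ T}.indicator fun x => |f x|)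
    (mu ρ) := if1.indicator m2'
  have i3 : Integrable (fun x => 1 / T * (|⟪e, x⟫_ℝ| * |f x|)) (mu ρ) := ix.const_mul _
  have h0 : ∀ x, ⟪e, x⟫_ℝ = 0 → f x = 0 := by
    intro x hx
    have := hodd x
    rw [hx, mul_zero, zero_smul, sub_zero] at this
    linarith
  have hpt : ∀ x, |f x| ≤ ({x : E k | 0 < ⟪e, x⟫_ℝ ∧ ⟪e, x⟫_ℝ ≤ T}.indicator (fun x => |f x|) x +
      {x : E k | 0 < ⟪-e, x⟫_ℝ ∧ ⟪-e, x⟫_ℝ ≤ T}.indicator (fun x => |f x|) x) +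
      1 / T * (|⟪e, x⟫_ℝ| * |f x|) := by
    intro x
    have n1 : 0 ≤ {x : E k | 0 < ⟪e, x⟫_ℝ ∧ ⟪e, x⟫_ℝ ≤ T}.indicator (fun x => |f x|) x :=
      indicator_nonneg (fun _ _ => abs_nonneg _) x
    have n2 : 0 ≤ {x : E k | 0 < ⟪-e, x⟫_ℝ ∧ ⟪-e, x⟫_ℝ ≤ T}.indicator (fun x => |f x|) x :=
      indicator_nonneg (fun _ _ => abs_nonneg _) x
    have n3 : 0 ≤ 1 / T * (|⟪e, x⟫_ℝ| * |f x|) := by positivity
    by_cases hx : |⟪e, x⟫_ℝ| ≤ T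
    · rcases lt_trichotomy ⟪e, x⟫_ℝ 0 with h | h | h
      · have hmem : x ∈ {x : E k | 0 < ⟪-e, x⟫_ℝ ∧ ⟪-e, x⟫_ℝ ≤ T} := by
          show 0 < ⟪-e, x⟫_ℝ ∧ ⟪-e, x⟫_ℝ ≤ T
          rw [inner_neg_left]
          exact ⟨by linarith, by linarith [(abs_le.1 hx).1]⟩
        rw [indicator_of_mem hmem]
        linarith
      · rw [h0 x h, abs_zero]
        rw [h0 x h, abs_zero] at n3
        linarith
      · have hmem : x ∈ {x : E k | 0 < ⟪e, x⟫_ℝ ∧ ⟪e, x⟫_ℝ ≤ T} := ⟨h, (abs_le.1 hx).2⟩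
        rw [indicator_of_mem hmem]
        linarith
    · rw [not_le] at hx
      have h1 : |f x| ≤ 1 / T * (|⟪e, x⟫_ℝ| * |f x|) := by
        rw [one_div, inv_mul_eq_div, le_div_iff₀ hT, mul_comm]
        exact mul_le_mul_of_nonneg_right hx.le (abs_nonneg _)
      linarith
  have i12 : Integrable (fun x => {x : E k | 0 < ⟪e, x⟫_ℝ ∧ ⟪e, x⟫_ℝ ≤ T}.indicator (fun x => |f x|) x +
      {x : E k | 0 < ⟪-e, x⟫_ℝ ∧ ⟪-e, x⟫_ℝ ≤ T}.indicator (fun x => |f x|) x) (mu ρ) := i1.add i2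
  have i123 : Integrable (fun x => ({x : E k | 0 < ⟪e, x⟫_ℝ ∧ ⟪e, x⟫_ℝ ≤ T}.indicator (fun x => |f x|) x +
      {x : E k | 0 < ⟪-e, x⟫_ℝ ∧ ⟪-e, x⟫_ℝ ≤ T}.indicator (fun x => |f x|) x) +
      1 / T * (|⟪e, x⟫_ℝ| * |f x|)) (mu ρ) := i12.add i3
  have hint := integral_mono if1 i123 hpt
  have s1 : ∫ x, (({x : E k | 0 < ⟪e, x⟫_ℝ ∧ ⟪e, x⟫_ℝ ≤ T}.indicator (fun x => |f x|) x +
      {x : E k | 0 < ⟪-e, x⟫_ℝ ∧ ⟪-e, x⟫_ℝ ≤ T}.indicator (fun x => |f x|) x) +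
      1 / T * (|⟪e, x⟫_ℝ| * |f x|)) ∂(mu ρ) =
      (∫ x, ({x : E k | 0 < ⟪e, x⟫_ℝ ∧ ⟪e, x⟫_ℝ ≤ T}.indicator (fun x => |f x|) x +
      {x : E k | 0 < ⟪-e, x⟫_ℝ ∧ ⟪-e, x⟫_ℝ ≤ T}.indicator (fun x => |f x|) x) ∂(mu ρ)) +
      ∫ x, 1 / T * (|⟪e, x⟫_ℝ| * |f x|) ∂(mu ρ) := integral_add i12 i3
  have s2 : ∫ x, ({x : E k | 0 < ⟪e, x⟫_ℝ ∧ ⟪e, x⟫_ℝ ≤ T}.indicator (fun x => |f x|) x +
      {x : E k | 0 < ⟪-e, x⟫_ℝ ∧ ⟪-e, x⟫_ℝ ≤ T}.indicator (fun x => |f x|) x) ∂(mu ρ) =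
      (∫ x, {x : E k | 0 < ⟪e, x⟫_ℝ ∧ ⟪e, x⟫_ℝ ≤ T}.indicator (fun x => |f x|) x ∂(mu ρ)) +
      ∫ x, {x : E k | 0 < ⟪-e, x⟫_ℝ ∧ ⟪-e, x⟫_ℝ ≤ T}.indicator (fun x => |f x|) x ∂(mu ρ) :=
    integral_add i1 i2
  rw [s1, s2, integral_indicator m2, integral_indicator m2', integral_const_mul] at hint
  obtain ⟨X, hX⟩ : ∃ X, X = ∫ x, |f x| ∂(mu ρ) := ⟨_, rfl⟩
  obtain ⟨Y, hY⟩ : ∃ Y, Y = ∫ x, ‖fderiv ℝ f x‖ ∂(mu ρ) := ⟨_, rfl⟩
  obtain ⟨Z, hZ⟩ : ∃ Z, Z = ∫ x, |⟪e, x⟫_ℝ| * |f x| ∂(mu ρ) := ⟨_, rfl⟩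
  have hX0 : 0 ≤ X := by rw [hX]; exact integral_nonneg fun x => abs_nonneg _
  have hmain : X ≤ T * Y + 1 / T * Z := by
    rw [← hX, ← hZ] at hint
    rw [← hY] at hgr
    have := mul_le_mul_of_nonneg_left hgr hT.le
    linarith
  have hY2 : Y ^ 2 ≤ Dr (mu ρ) f := by
    have := cs hρ.lc hdc (continuous_const (y := (1 : ℝ)))
    simp only [mul_one, one_pow, integral_const, probReal_univ, smul_eq_mul] at this
    rw [hY]
    exact this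
  have hZ2 : Z ^ 2 ≤ s * ∫ x, f x ^ 2 ∂(mu ρ) := by
    have h1 := cs hρ.lc hic.abs hfc.abs
    simp only [sq_abs] at h1
    rw [hZ]
    exact h1.trans (mul_le_mul_of_nonneg_right hs (integral_nonneg fun x => sq_nonneg _))
  rw [← hX]
  have h1 : X ^ 2 ≤ (T * Y + 1 / T * Z) ^ 2 := pow_le_pow_left₀ hX0 hmain 2
  have h2 : (T * Y + 1 / T * Z) ^ 2 ≤ 2 * (T * Y) ^ 2 + 2 * (1 / T * Z) ^ 2 := by
    nlinarith [sq_nonneg (T * Y - 1 / T * Z)]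
  have h3 : 2 * (T * Y) ^ 2 ≤ 2 * T ^ 2 * Dr (mu ρ) f := by
    have := mul_le_mul_of_nonneg_left hY2 (by positivity : 0 ≤ 2 * T ^ 2)
    calc 2 * (T * Y) ^ 2 = 2 * T ^ 2 * Y ^ 2 := by ring
      _ ≤ _ := this
  have h4 : 2 * (1 / T * Z) ^ 2 ≤ 2 * s / T ^ 2 * ∫ x, f x ^ 2 ∂(mu ρ) := by
    have := mul_le_mul_of_nonneg_left hZ2 (by positivity : 0 ≤ 2 / T ^ 2)
    calc 2 * (1 / T * Z) ^ 2 = 2 / T ^ 2 * Z ^ 2 := by ring
      _ ≤ _ := this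
      _ = _ := by ring
  linarith

end Run7.h444.RC
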