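import Pool.Agent.Run7.h444.RC.C

/-!
# Families of functions and reflections (helper444)
-/

set_option autoImplicit false

namespace Run7.h444.RC

open MeasureTheory Set Filter Topology
open scoped ENNReal InnerProductSpace
open Pool.Agent.H212R2.KLS (mu Bdd)
open Pool.Agent.H888R2.KT (LC)
open Pool.Agent.H888R2.KT.N9x (int_cont grad_cont)
open Pool.Agent.R754.KG (E un)
open Pool.Agent.R755.KF (BL PB)
open Run7.h444.SC (Vr Dr)

variable {k : ℕ} {ρ : E k → ℝ}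

/-- splitting with respect to one involution -/
theorem parts (hρ : LB ρ) (g0 : E k ≃ₗᵢ[ℝ] E k) (hg0 : ∀ x, g0 (g0 x) = x)
    (hρg : ∀ x, ρ (g0 x) = ρ x) {C : ℝ} {f : E k → ℝ} (hf : BL C f) :
    BL C (fun y => (f y + f (g0 y)) / 2) ∧ BL C (fun y => (f y - f (g0 y)) / 2) ∧
    Vr (mu ρ) f = Vr (mu ρ) (fun y => (f y + f (g0 y)) / 2) +
      Vr (mu ρ) (fun y => (f y - f (g0 y)) / 2) ∧
    Dr (mu ρ) (fun y => (f y + f (g0 y)) / 2) + Dr (mu ρ) (fun y => (f y - f (g0 y)) / 2) =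
      Dr (mu ρ) f := by
  have key : ∀ F : E k → ℝ, ∫ x, F (g0 x) ∂(mu ρ) = ∫ x, F x ∂(mu ρ) := fun F =>
    Pool.Agent.H888R2.KT.N10x.int_comp hρ.lc.meas g0 hρg F
  have hg0c : ContDiff ℝ 1 (fun y : E k => g0 y) := g0.contDiff
  have hg : ContDiff ℝ 1 (fun y => f (g0 y)) := hf.c1.comp hg0c
  have hfe : ContDiff ℝ 1 (fun y => (f y + f (g0 y)) / 2) := (hf.c1.add hg).div_const 2
  have hfo : ContDiff ℝ 1 (fun y => (f y - f (g0 y)) / 2) := (hf.c1.sub hg).div_const 2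
  have d1 : ∀ x, HasFDerivAt f (fderiv ℝ f x) x := fun x =>
    (hf.c1.differentiable (by norm_num) x).hasFDerivAt
  obtain ⟨L, hL⟩ : ∃ L : E k → (E k →L[ℝ] ℝ), ∀ x, L x =
    (fderiv ℝ f (g0 x)).comp (g0 : E k →L[ℝ] E k) := ⟨_, fun x => rfl⟩
  have d2 : ∀ x, HasFDerivAt (fun y => f (g0 y)) (L x) x := by
    intro x
    rw [hL]
    have h1 : HasFDerivAt (fun y : E k => g0 y) (g0 : E k →L[ℝ] E k) x :=
      (g0 : E k →L[ℝ] E k).hasFDerivAt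
    exact (d1 (g0 x)).comp x h1
  have hLn : ∀ x, ‖L x‖ = ‖fderiv ℝ f (g0 x)‖ := by
    intro x
    rw [hL]
    exact ContinuousLinearMap.opNorm_comp_linearIsometryEquiv _ g0
  have d3 : ∀ x, fderiv ℝ (fun y => (f y + f (g0 y)) / 2) x = (2 : ℝ)⁻¹ • (fderiv ℝ f x + L x) := by
    intro x
    refine HasFDerivAt.fderiv ?_
    have := ((d1 x).add (d2 x)).const_smul (2 : ℝ)⁻¹
    refine this.congr_of_eventuallyEq (Filter.Eventually.of_forall fun y => ?_)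
    simp only [Pi.smul_apply, Pi.add_apply, smul_eq_mul]
    ring
  have d4 : ∀ x, fderiv ℝ (fun y => (f y - f (g0 y)) / 2) x = (2 : ℝ)⁻¹ • (fderiv ℝ f x - L x) := by
    intro x
    refine HasFDerivAt.fderiv ?_
    have := ((d1 x).sub (d2 x)).const_smul (2 : ℝ)⁻¹
    refine this.congr_of_eventuallyEq (Filter.Eventually.of_forall fun y => ?_)
    simp only [Pi.smul_apply, Pi.sub_apply, smul_eq_mul]
    ring
  have hn2 : ‖(2 : ℝ)⁻¹‖ = 1 / 2 := by rw [Real.norm_eq_abs, abs_of_pos (by norm_num)]; norm_num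
  refine ⟨⟨hfe, fun x => ?_, fun x => ?_⟩, ⟨hfo, fun x => ?_, fun x => ?_⟩, ?_, ?_⟩
  · have a1 := abs_le.1 (hf.bd x)
    have a2 := abs_le.1 (hf.bd (g0 x))
    rw [abs_le]
    constructor <;> linarith
  · rw [d3, norm_smul, hn2]
    have := norm_add_le (fderiv ℝ f x) (L x)
    rw [hLn] at this
    linarith [hf.gd x, hf.gd (g0 x)]
  · have a1 := abs_le.1 (hf.bd x)
    have a2 := abs_le.1 (hf.bd (g0 x))
    rw [abs_le]
    constructor <;> linarith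
  · rw [d4, norm_smul, hn2]
    have := norm_sub_le (fderiv ℝ f x) (L x)
    rw [hLn] at this
    linarith [hf.gd x, hf.gd (g0 x)]
  · have i1 : Integrable (fun x => ((f x + f (g0 x)) / 2) ^ 2) (mu ρ) :=
      int_cont hρ.lc (hfe.continuous.pow 2)
    have i2 : Integrable (fun x => ((f x - f (g0 x)) / 2) ^ 2) (mu ρ) :=
      int_cont hρ.lc (hfo.continuous.pow 2)
    have i3 : Integrable (fun x => f x ^ 2) (mu ρ) := int_cont hρ.lc (hf.c1.continuous.pow 2)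
    have i4 : Integrable (fun x => f (g0 x) ^ 2) (mu ρ) := int_cont hρ.lc (hg.continuous.pow 2)
    have i5 : Integrable f (mu ρ) := int_cont hρ.lc hf.c1.continuous
    have i6 : Integrable (fun x => f (g0 x)) (mu ρ) := int_cont hρ.lc hg.continuous
    have k1 := key (fun x => f x ^ 2)
    have k2 := key f
    have e2 : ∫ x, (f x ^ 2 + f (g0 x) ^ 2) ∂(mu ρ) =
        ∫ x, 2 * (((f x + f (g0 x)) / 2) ^ 2 + ((f x - f (g0 x)) / 2) ^ 2) ∂(mu ρ) := by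
      congr 1
      funext x
      ring
    rw [integral_add i3 i4, integral_const_mul, integral_add i1 i2] at e2
    have e3 : ∫ x, (f x + f (g0 x)) / 2 ∂(mu ρ) = ∫ x, f x ∂(mu ρ) := by
      rw [integral_div, integral_add i5 i6, k2]
      ring
    have e4 : ∫ x, (f x - f (g0 x)) / 2 ∂(mu ρ) = 0 := by
      rw [integral_div, integral_sub i5 i6, k2]
      ring
    unfold Vr
    rw [e3, e4]
    linarith
  · have i1 := int_cont hρ.lc (grad_cont hfe)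
    have i2 := int_cont hρ.lc (grad_cont hfo)
    have i3 := int_cont hρ.lc (grad_cont hf.c1)
    have i4 : Integrable (fun x => ‖fderiv ℝ f (g0 x)‖ ^ 2) (mu ρ) :=
      int_cont hρ.lc ((grad_cont hf.c1).comp g0.continuous)
    have k1 := key (fun x => ‖fderiv ℝ f x‖ ^ 2)
    have e2 : ∫ x, 2 * (‖fderiv ℝ (fun y => (f y + f (g0 y)) / 2) x‖ ^ 2 +
        ‖fderiv ℝ (fun y => (f y - f (g0 y)) / 2) x‖ ^ 2) ∂(mu ρ) =
        ∫ x, (‖fderiv ℝ f x‖ ^ 2 + ‖fderiv ℝ f (g0 x)‖ ^ 2) ∂(mu ρ) := by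
      congr 1
      funext x
      have h3 := Run7.h444.ER.par_dual (fderiv ℝ f x) (L x)
      rw [hLn] at h3
      rw [d3, d4, norm_smul, norm_smul, mul_pow, mul_pow]
      have h4 : ‖(2 : ℝ)⁻¹‖ ^ 2 = 1 / 4 := by rw [hn2]; norm_num
      rw [h4]
      linarith
    rw [integral_const_mul, integral_add i1 i2, integral_add i3 i4] at e2
    unfold Dr
    linarith

/-- `f` is even or odd with respect to `g j` -/
def Pure {k q : ℕ} (g : Fin q → E k ≃ₗᵢ[ℝ] E k) (j : Fin q) (f : E k → ℝ) : Prop :=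
  (∀ x, f (g j x) = f x) ∨ ∀ x, f (g j x) = -f x

/-- a smooth version of `|f|` -/
theorem abs_smooth {C η : ℝ} (hη : 0 < η) {f : E k → ℝ} (hf : BL C f) :
    BL C (fun x => Real.sqrt (f x ^ 2 + η ^ 2) - η) ∧
    (∀ x, 0 ≤ Real.sqrt (f x ^ 2 + η ^ 2) - η) ∧
    (∀ x, Real.sqrt (f x ^ 2 + η ^ 2) - η ≤ |f x|) ∧
    (∀ x, f x ^ 2 ≤ (Real.sqrt (f x ^ 2 + η ^ 2) - η + η) ^ 2) ∧
    ∀ x, ‖fderiv ℝ (fun x => Real.sqrt (f x ^ 2 + η ^ 2) - η) x‖ ≤ ‖fderiv ℝ f x‖ := by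
  have hpos : ∀ x, 0 < f x ^ 2 + η ^ 2 := fun x => by positivity
  have h1 : ContDiff ℝ 1 (fun x => Real.sqrt (f x ^ 2 + η ^ 2) - η) :=
    (((hf.c1.pow 2).add contDiff_const).sqrt fun x => (hpos x).ne').sub contDiff_const
  have h2 : ∀ x, η ≤ Real.sqrt (f x ^ 2 + η ^ 2) := fun x =>
    Real.le_sqrt_of_sq_le (by nlinarith [sq_nonneg (f x)])
  have h3 : ∀ x, Real.sqrt (f x ^ 2 + η ^ 2) - η ≤ |f x| := by
    intro x
    have : Real.sqrt (f x ^ 2 + η ^ 2) ≤ |f x| + η := by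
      refine Real.sqrt_le_iff.2 ⟨by positivity, ?_⟩
      nlinarith [sq_abs (f x), abs_nonneg (f x), mul_nonneg (abs_nonneg (f x)) hη.le]
    linarith
  have h4 : ∀ x, f x ^ 2 ≤ (Real.sqrt (f x ^ 2 + η ^ 2) - η + η) ^ 2 := by
    intro x
    rw [sub_add_cancel, Real.sq_sqrt (hpos x).le]
    nlinarith [sq_nonneg η]
  have h5 : ∀ x, ‖fderiv ℝ (fun x => Real.sqrt (f x ^ 2 + η ^ 2) - η) x‖ ≤ ‖fderiv ℝ f x‖ := by
    intro x
    have d1 : HasFDerivAt f (fderiv ℝ f x) x :=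
      (hf.c1.differentiable (by norm_num) x).hasFDerivAt
    have d2 : HasDerivAt (fun t : ℝ => Real.sqrt (t ^ 2 + η ^ 2) - η)
        (f x / Real.sqrt (f x ^ 2 + η ^ 2)) (f x) := by
      have := (((hasDerivAt_pow 2 (f x)).add_const (η ^ 2)).sqrt (hpos x).ne').sub_const η
      refine this.congr_deriv ?_
      simp only [Nat.cast_ofNat, Nat.add_one_sub_one, pow_one]
      rw [mul_div_mul_left _ _ (by norm_num : (2 : ℝ) ≠ 0)]
    have d3 := d2.comp_hasFDerivAt x d1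
    have d4 : fderiv ℝ (fun x => Real.sqrt (f x ^ 2 + η ^ 2) - η) x =
        (f x / Real.sqrt (f x ^ 2 + η ^ 2)) • fderiv ℝ f x := d3.fderiv
    rw [d4, norm_smul]
    have h6 : ‖f x / Real.sqrt (f x ^ 2 + η ^ 2)‖ ≤ 1 := by
      rw [Real.norm_eq_abs, abs_div, abs_of_nonneg (Real.sqrt_nonneg _),
        div_le_one (Real.sqrt_pos.2 (hpos x))]
      exact Real.le_sqrt_of_sq_le (by rw [sq_abs]; nlinarith [sq_nonneg η])
    calc _ ≤ 1 * ‖fderiv ℝ f x‖ := mul_le_mul_of_nonneg_right h6 (norm_nonneg _)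
      _ = _ := one_mul _
  refine ⟨⟨h1, fun x => ?_, fun x => (h5 x).trans (hf.gd x)⟩, fun x => by linarith [h2 x], h3, h4,
    h5⟩
  rw [abs_of_nonneg (by linarith [h2 x])]
  exact (h3 x).trans (hf.bd x)

/-- one pure function -/
theorem pure_one (hρ : LB ρ) {e : E k} (he : ‖e‖ = 1)
    (hinv : ∀ x, ρ (x - (2 * ⟪e, x⟫_ℝ) • e) = ρ x) {C η s : ℝ} (hη : 0 < η) {f : E k → ℝ}
    (hf : BL C f) (hodd : ∀ x, f (x - (2 * ⟪e, x⟫_ℝ) • e) = -f x) (hs0 : 0 < s)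
    (hs : ∫ x, ⟪e, x⟫_ℝ ^ 2 ∂(mu ρ) ≤ s) :
    Vr (mu ρ) f ≤ 4 / 3 * (Vr (mu ρ) (fun x => Real.sqrt (f x ^ 2 + η ^ 2) - η) +
      16 * s * Dr (mu ρ) f + (2 * η * C + η ^ 2)) := by
  have hprob := hρ.prob
  obtain ⟨b1, b2, b3, b4, -⟩ := abs_smooth hη hf
  obtain ⟨G, hG⟩ : ∃ G : E k → ℝ, G = fun x => Real.sqrt (f x ^ 2 + η ^ 2) - η := ⟨_, rfl⟩
  have b2' : ∀ x, 0 ≤ G x := fun x => by rw [hG]; exact b2 x
  have b3' : ∀ x, G x ≤ |f x| := fun x => by rw [hG]; exact b3 x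
  have b4' : ∀ x, f x ^ 2 ≤ (G x + η) ^ 2 := fun x => by rw [hG]; exact b4 x
  rw [← hG] at b1 ⊢
  have hGc := b1.c1.continuous
  have hfc := hf.c1.continuous
  have h1 := odd_mean hρ he hinv hf.c1 hodd (T := Real.sqrt (8 * s)) (Real.sqrt_pos.2 (by positivity)) hs
  rw [Real.sq_sqrt (by positivity)] at h1
  have e1 : 2 * s / (8 * s) = 1 / 4 := by field_simp; norm_num
  rw [e1] at h1
  have iG : Integrable G (mu ρ) := int_cont hρ.lc hGc
  have iG2 : Integrable (fun x => G x ^ 2) (mu ρ) := int_cont hρ.lc (hGc.pow 2)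
  have if1 : Integrable (fun x => |f x|) (mu ρ) := int_cont hρ.lc hfc.abs
  have if2 : Integrable (fun x => f x ^ 2) (mu ρ) := int_cont hρ.lc (hfc.pow 2)
  have m1 : ∫ x, G x ∂(mu ρ) ≤ ∫ x, |f x| ∂(mu ρ) := integral_mono iG if1 b3'
  have m0 : 0 ≤ ∫ x, G x ∂(mu ρ) := integral_nonneg b2'
  have m2 : (∫ x, G x ∂(mu ρ)) ^ 2 ≤ (∫ x, |f x| ∂(mu ρ)) ^ 2 := pow_le_pow_left₀ m0 m1 2
  have m3 : ∫ x, G x ∂(mu ρ) ≤ C := by
    have := integral_mono iG (integrable_const C) fun x => (le_abs_self _).trans (b1.bd x)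
    simpa using this
  have m4 : ∫ x, f x ^ 2 ∂(mu ρ) ≤ ∫ x, G x ^ 2 ∂(mu ρ) + 2 * η * (∫ x, G x ∂(mu ρ)) + η ^ 2 := by
    have i1 : Integrable (fun x => G x ^ 2 + 2 * η * G x) (mu ρ) := iG2.add (iG.const_mul _)
    have i2 : Integrable (fun x => G x ^ 2 + 2 * η * G x + η ^ 2) (mu ρ) :=
      i1.add (integrable_const _)
    have h2 : ∫ x, f x ^ 2 ∂(mu ρ) ≤ ∫ x, (G x ^ 2 + 2 * η * G x + η ^ 2) ∂(mu ρ) := by
      refine integral_mono if2 i2 fun x => ?_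
      refine (b4' x).trans (le_of_eq ?_)
      ring
    have h3 : ∫ x, (G x ^ 2 + 2 * η * G x + η ^ 2) ∂(mu ρ) =
        (∫ x, (G x ^ 2 + 2 * η * G x) ∂(mu ρ)) + ∫ _x, η ^ 2 ∂(mu ρ) :=
      integral_add i1 (integrable_const _)
    have h4 : ∫ x, (G x ^ 2 + 2 * η * G x) ∂(mu ρ) =
        (∫ x, G x ^ 2 ∂(mu ρ)) + ∫ x, 2 * η * G x ∂(mu ρ) := integral_add iG2 (iG.const_mul _)
    rw [h3, h4, integral_const_mul, integral_const] at h2
    simpa using h2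
  have m5 : 2 * η * (∫ x, G x ∂(mu ρ)) ≤ 2 * η * C := mul_le_mul_of_nonneg_left m3 (by positivity)
  have hVf : Vr (mu ρ) f ≤ ∫ x, f x ^ 2 ∂(mu ρ) := by
    unfold Vr
    nlinarith [sq_nonneg (∫ x, f x ∂(mu ρ))]
  have hVG : Vr (mu ρ) G = ∫ x, G x ^ 2 ∂(mu ρ) - (∫ x, G x ∂(mu ρ)) ^ 2 := rfl
  rw [hVG]
  have e2 : 2 * (8 * s) * Dr (mu ρ) f = 16 * s * Dr (mu ρ) f := by ring
  rw [e2] at h1
  linarith

end Run7.h444.RC
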