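import Pool.Agent.Run7.h444.RC.D

/-!
# All functions from invariant functions (helper444)
-/

set_option autoImplicit false

namespace Run7.h444.RC

open MeasureTheory Set Filter Topology
open scoped ENNReal InnerProductSpace
open Pool.Agent.H212R2.KLS (mu Bdd)
open Pool.Agent.H888R2.KT (LC)
open Pool.Agent.H888R2.KT.N9x (int_cont grad_cont)
open Pool.Agent.R754.KG (E un)
open Pool.Agent.R755.KF (BL PB)
open Run7.h444.SC (Vr Dr)

variable {k q : ℕ} {ρ : E k → ℝ} {e : Fin q → E k} {g : Fin q → E k ≃ₗᵢ[ℝ] E k} {s : ℝ}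

/-- reflections in orthogonal hyperplanes which preserve the density `ρ` -/
structure Refl {k q : ℕ} (ρ : E k → ℝ) (e : Fin q → E k) (g : Fin q → E k ≃ₗᵢ[ℝ] E k)
    (s : ℝ) : Prop where
  unit : ∀ j, ‖e j‖ = 1
  orth : ∀ i j, i ≠ j → ⟪e i, e j⟫_ℝ = 0
  eq : ∀ j x, g j x = x - (2 * ⟪e j, x⟫_ℝ) • e j
  inv : ∀ j x, ρ (g j x) = ρ x
  mom : ∀ j, ∫ x, ⟪e j, x⟫_ℝ ^ 2 ∂(mu ρ) ≤ s

theorem Refl.invol (hR : Refl ρ e g s) (j : Fin q) (x : E k) : g j (g j x) = x := by
  have hee : ⟪e j, e j⟫_ℝ = 1 := by rw [real_inner_self_eq_norm_sq, hR.unit]; norm_num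
  rw [hR.eq, hR.eq, inner_sub_right, inner_smul_right, hee]
  module

theorem Refl.comm (hR : Refl ρ e g s) {i j : Fin q} (hij : i ≠ j) (x : E k) :
    g i (g j x) = g j (g i x) := by
  have h1 : ⟪e i, e j⟫_ℝ = 0 := hR.orth i j hij
  have h2 : ⟪e j, e i⟫_ℝ = 0 := hR.orth j i hij.symm
  rw [hR.eq, hR.eq, hR.eq, hR.eq, inner_sub_right, inner_smul_right, inner_sub_right,
    inner_smul_right, h1, h2]
  module

theorem Vr_nonneg (hρ : LB ρ) {f : E k → ℝ} (hf : Continuous f) : 0 ≤ Vr (mu ρ) f := by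
  have hprob := hρ.prob
  have := cs hρ.lc hf (continuous_const (y := (1 : ℝ)))
  simp only [mul_one, one_pow, integral_const, probReal_univ, smul_eq_mul] at this
  unfold Vr
  linarith

theorem fam_zero (hρ : LB ρ) (hR : Refl ρ e g s) (hs : 0 < s) {A δ M : ℝ} (hA : 0 < A)
    (hν : InW g A δ (mu ρ)) (hM : 0 < M) (ι : Type) [Fintype ι] (C R : ℝ)
    (F : ι → E k → ℝ) (hF : ∀ a, BL C (F a)) (hFR : ∀ x, ∑ a, F a x ^ 2 ≤ R)
    (hp : ∀ a i, Pure g i (F a)) :
    ∑ a, Vr (mu ρ) (F a) ≤ 4 / 3 * (2 * (M ^ 2 * δ) + 6 / M ^ 2 * R ^ 2) +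
      4 / 3 * (2 * A + 16 * s) * ∑ a, Dr (mu ρ) (F a) := by
  classical
  obtain ⟨B, -, hB⟩ := hρ.pb
  obtain ⟨N, hN⟩ : ∃ N : ℝ, N = Fintype.card ι := ⟨_, rfl⟩
  have key : ∀ η : ℝ, 0 < η → ∑ a, Vr (mu ρ) (F a) ≤
      4 / 3 * (2 * (M ^ 2 * δ) + 6 / M ^ 2 * R ^ 2) +
      4 / 3 * (2 * A + 16 * s) * ∑ a, Dr (mu ρ) (F a) + 4 / 3 * (N * (2 * η * C + η ^ 2)) := by
    intro η hη
    obtain ⟨G, hG⟩ : ∃ G : ι → E k → ℝ, ∀ a, G a = if Inv g (F a) then F a else
      fun x => Real.sqrt (F a x ^ 2 + η ^ 2) - η := ⟨_, fun a => rfl⟩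
    have hC : ∀ _a : ι, 0 ≤ C := fun a => (abs_nonneg _).trans ((hF a).bd 0)
    have hGB : ∀ a, BL C (G a) := by
      intro a
      rw [hG]
      split_ifs with h
      · exact hF a
      · exact (abs_smooth hη (hF a)).1
    have hGI : ∀ a, Inv g (G a) := by
      intro a
      rw [hG]
      split_ifs with h
      · exact h
      · intro j x
        have h2 : F a (g j x) ^ 2 = F a x ^ 2 := by
          rcases hp a j with h3 | h3
          · rw [h3]
          · rw [h3, neg_sq]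
        simp only [h2]
    have hGs : ∀ a x, G a x ^ 2 ≤ F a x ^ 2 := by
      intro a x
      rw [hG]
      split_ifs with h
      · exact le_rfl
      · obtain ⟨-, b2, b3, -, -⟩ := abs_smooth hη (hF a)
        rw [← sq_abs (F a x)]
        exact pow_le_pow_left₀ (b2 x) (b3 x) 2
    have hGD : ∀ a, Dr (mu ρ) (G a) ≤ Dr (mu ρ) (F a) := by
      intro a
      rw [hG]
      split_ifs with h
      · exact le_rfl
      · obtain ⟨b1, b2, b3, -, b5⟩ := abs_smooth hη (hF a)
        unfold Dr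
        exact integral_mono (int_cont hρ.lc (grad_cont b1.c1))
          (int_cont hρ.lc (grad_cont (hF a).c1)) fun x =>
            pow_le_pow_left₀ (norm_nonneg _) (b5 x) 2
    have hV : ∀ a, Vr (mu ρ) (F a) ≤ 4 / 3 * (Vr (mu ρ) (G a) + 16 * s * Dr (mu ρ) (F a) +
        (2 * η * C + η ^ 2)) := by
      intro a
      have hD0 : 0 ≤ Dr (mu ρ) (F a) := Run7.h444.SC.Dr_nonneg _
      have hx : 0 ≤ 2 * η * C + η ^ 2 := by
        have := hC a
        positivity
      have hx2 : 0 ≤ 16 * s * Dr (mu ρ) (F a) := by positivity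
      by_cases h : Inv g (F a)
      · have hGa : G a = F a := by rw [hG, if_pos h]
        rw [hGa]
        have := Vr_nonneg hρ (hF a).c1.continuous
        linarith
      · have hGa : G a = fun x => Real.sqrt (F a x ^ 2 + η ^ 2) - η := by rw [hG, if_neg h]
        rw [hGa]
        obtain ⟨i, hi⟩ : ∃ i, ¬ ∀ x, F a (g i x) = F a x := by
          by_contra hn
          push Not at hn
          exact h hn
        have hodd : ∀ x, F a (g i x) = -F a x := by
          rcases hp a i with h3 | h3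
          · exact absurd h3 hi
          · exact h3
        exact pure_one hρ (hR.unit i) (fun x => by rw [← hR.eq, hR.inv]) hη (hF a)
          (fun x => by rw [← hR.eq, hodd]) hs (hR.mom i)
    have hsum : ∑ a, Vr (mu ρ) (F a) ≤ ∑ a, 4 / 3 * (Vr (mu ρ) (G a) +
        16 * s * Dr (mu ρ) (F a) + (2 * η * C + η ^ 2)) := Finset.sum_le_sum fun a _ => hV a
    rw [← Finset.mul_sum, Finset.sum_add_distrib, Finset.sum_add_distrib, ← Finset.mul_sum,
      Finset.sum_const, Finset.card_univ, nsmul_eq_mul, ← hN] at hsum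
    have hvec := vec' hA hB hν hGB hGI hM (fun x => (Finset.sum_le_sum fun a _ =>
      hGs a x).trans (hFR x))
    have hDs : ∑ a, Dr (mu ρ) (G a) ≤ ∑ a, Dr (mu ρ) (F a) := Finset.sum_le_sum fun a _ => hGD a
    have h3 := mul_le_mul_of_nonneg_left hDs hA.le
    nlinarith
  have ht : Tendsto (fun η : ℝ => 4 / 3 * (2 * (M ^ 2 * δ) + 6 / M ^ 2 * R ^ 2) +
      4 / 3 * (2 * A + 16 * s) * ∑ a, Dr (mu ρ) (F a) + 4 / 3 * (N * (2 * η * C + η ^ 2)))
      (𝓝[>] 0) (𝓝 (4 / 3 * (2 * (M ^ 2 * δ) + 6 / M ^ 2 * R ^ 2) +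
      4 / 3 * (2 * A + 16 * s) * ∑ a, Dr (mu ρ) (F a))) := by
    have hc : Continuous fun η : ℝ => 4 / 3 * (2 * (M ^ 2 * δ) + 6 / M ^ 2 * R ^ 2) +
      4 / 3 * (2 * A + 16 * s) * ∑ a, Dr (mu ρ) (F a) + 4 / 3 * (N * (2 * η * C + η ^ 2)) := by
      fun_prop
    have := (hc.tendsto 0).mono_left (nhdsWithin_le_nhds (s := Ioi (0 : ℝ)))
    simpa using this
  exact ge_of_tendsto ht (eventually_nhdsWithin_of_forall fun η hη => key η hη)

theorem fam (hρ : LB ρ) (hR : Refl ρ e g s) (hs : 0 < s) {A δ M : ℝ} (hA : 0 < A)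
    (hν : InW g A δ (mu ρ)) (hM : 0 < M) : ∀ n : ℕ, n ≤ q → ∀ (ι : Type) [Fintype ι] (C R : ℝ)
    (F : ι → E k → ℝ), (∀ a, BL C (F a)) → (∀ x, ∑ a, F a x ^ 2 ≤ R) →
    (∀ a (i : Fin q), n ≤ i.val → Pure g i (F a)) →
    ∑ a, Vr (mu ρ) (F a) ≤ 4 / 3 * (2 * (M ^ 2 * δ) + 6 / M ^ 2 * R ^ 2) +
      4 / 3 * (2 * A + 16 * s) * ∑ a, Dr (mu ρ) (F a) := by
  intro n
  induction n with
  | zero =>
    intro _ ι _ C R F hF hFR hp
    exact fam_zero hρ hR hs hA hν hM ι C R F hF hFR fun a i => hp a i (Nat.zero_le _)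
  | succ n ih =>
    intro hn ι _ C R F hF hFR hp
    obtain ⟨i0, hi0⟩ : ∃ i0 : Fin q, i0.val = n := ⟨⟨n, hn⟩, rfl⟩
    have hpt := fun a => parts hρ (g i0) (hR.invol i0) (hR.inv i0) (hF a)
    obtain ⟨F', hF'⟩ : ∃ F' : ι × Bool → E k → ℝ, ∀ a, (F' (a, true) =
      fun y => (F a y + F a (g i0 y)) / 2) ∧ F' (a, false) = fun y => (F a y - F a (g i0 y)) / 2 :=
      ⟨fun p => if p.2 then (fun y => (F p.1 y + F p.1 (g i0 y)) / 2) else
        fun y => (F p.1 y - F p.1 (g i0 y)) / 2, fun a => ⟨by simp, by simp⟩⟩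
    have hsumV : ∑ p, Vr (mu ρ) (F' p) = ∑ a, Vr (mu ρ) (F a) := by
      rw [Fintype.sum_prod_type]
      refine Finset.sum_congr rfl fun a _ => ?_
      rw [Fintype.sum_bool, (hF' a).1, (hF' a).2]
      exact (hpt a).2.2.1.symm
    have hsumD : ∑ p, Dr (mu ρ) (F' p) = ∑ a, Dr (mu ρ) (F a) := by
      rw [Fintype.sum_prod_type]
      refine Finset.sum_congr rfl fun a _ => ?_
      rw [Fintype.sum_bool, (hF' a).1, (hF' a).2]
      exact (hpt a).2.2.2
    have h1 := ih (by omega) (ι × Bool) C R F' (fun p => by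
      obtain ⟨a, b⟩ := p
      cases b
      · rw [(hF' a).2]
        exact (hpt a).2.1
      · rw [(hF' a).1]
        exact (hpt a).1) (fun x => by
      rw [Fintype.sum_prod_type]
      have e1 : ∀ a, ∑ b, F' (a, b) x ^ 2 = F a x ^ 2 / 2 + F a (g i0 x) ^ 2 / 2 := by
        intro a
        rw [Fintype.sum_bool, (hF' a).1, (hF' a).2]
        simp only
        ring
      rw [Finset.sum_congr rfl fun a _ => e1 a, Finset.sum_add_distrib, ← Finset.sum_div,
        ← Finset.sum_div]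
      have h2 := hFR x
      have h3 := hFR (g i0 x)
      linarith) (fun p i hi => by
      obtain ⟨a, b⟩ := p
      by_cases hii : i = i0
      · subst hii
        cases b
        · right
          intro x
          rw [(hF' a).2]
          simp only [hR.invol]
          ring
        · left
          intro x
          rw [(hF' a).1]
          simp only [hR.invol]
          ring
      · have hi' : n + 1 ≤ i.val := by
          have : i.val ≠ n := fun h => hii (Fin.ext (by rw [h, hi0]))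
          omega
        have hcm : ∀ x, g i0 (g i x) = g i (g i0 x) := fun x => hR.comm (Ne.symm hii) x
        rcases hp a i hi' with h2 | h2
        · left
          intro x
          cases b
          · rw [(hF' a).2]
            simp only [hcm, h2]
          · rw [(hF' a).1]
            simp only [hcm, h2]
        · right
          intro x
          cases b
          · rw [(hF' a).2]
            simp only [hcm, h2]
            ring
          · rw [(hF' a).1]
            simp only [hcm, h2]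
            ring)
    rw [hsumV, hsumD] at h1
    exact h1

/-- all functions -/
theorem all (hρ : LB ρ) (hR : Refl ρ e g s) (hs : 0 < s) {A δ M C : ℝ} (hA : 0 < A)
    (hν : InW g A δ (mu ρ)) (hM : 0 < M) {f : E k → ℝ} (hf : BL C f) (h1 : ∀ x, |f x| ≤ 1) :
    Vr (mu ρ) f ≤ 4 / 3 * (2 * (M ^ 2 * δ) + 6 / M ^ 2) +
      4 / 3 * (2 * A + 16 * s) * Dr (mu ρ) f := by
  have h2 := fam hρ hR hs hA hν hM q le_rfl Unit C 1 (fun _ => f) (fun _ => hf) (fun x => by
    simp only [Finset.univ_unique, Finset.sum_const, Finset.card_singleton, one_smul]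
    rw [← sq_abs]
    have := pow_le_pow_left₀ (abs_nonneg _) (h1 x) 2
    simpa using this) (fun _ i hi => absurd i.2 (not_lt.2 hi))
  simpa using h2

/-- **weak Poincare inequality from the concentration of invariant sets** -/
theorem weak (hρ : LB ρ) (hR : Refl ρ e g s) (hs : 0 < s) {r C : ℝ} (hr : 0 < r)
    (hS : SymG g (mu ρ) (1 / 16000000) r) {f : E k → ℝ} (hf : BL C f) (h1 : ∀ x, |f x| ≤ 1) :
    Vr (mu ρ) f ≤ 1 / 100 + 12000000 * (r ^ 2 + s) * Dr (mu ρ) f := by
  have hν : InW g (4000000 * r ^ 2) (1 / 1000000) (mu ρ) := by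
    intro C0 f0 hf0 h0 hi0
    have h2 := inv_weak hρ hR.inv hS (h := 2000000 * r ^ 2) (by positivity) hf0 h0 hi0
    have e1 : r ^ 2 / (2000000 * r ^ 2) = 1 / 2000000 := by
      field_simp
    rw [e1] at h2
    unfold Vr Dr at h2
    linarith
  have h2 := all hρ hR hs (A := 4000000 * r ^ 2) (by positivity) hν (M := 50) (by norm_num) hf h1
  have hD := Run7.h444.SC.Dr_nonneg (ν := mu ρ) f
  have e2 : 4 / 3 * (2 * ((50 : ℝ) ^ 2 * (1 / 1000000)) + 6 / 50 ^ 2) ≤ 1 / 100 := by norm_num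
  have e3 : 4 / 3 * (2 * (4000000 * r ^ 2) + 16 * s) ≤ 12000000 * (r ^ 2 + s) := by
    have : 0 ≤ r ^ 2 := sq_nonneg r
    linarith
  have e4 := mul_le_mul_of_nonneg_right e3 hD
  linarith

end Run7.h444.RC
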