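import Pool.Agent.Run7.h444.RC.E
import Pool.Agent.Y211.FF.Half

/-!
# Concentration of reflection-invariant sets: bodies (helper444)
-/

set_option autoImplicit false

namespace Run7.h444.RC

open MeasureTheory Set Filter Topology
open scoped ENNReal InnerProductSpace
open Pool.Agent.W695.KH (Eu EU EV VV Sm Pot Uu WPo)
open Pool.Agent.H212R2.KLS (mu Bdd)
open Pool.Agent.H888R2.KT (LC)
open Pool.Agent.R754.KG (E un)
open Pool.Agent.R755.KF (BL PB)
open Pool.Agent.N483.KM (po LCI CR)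
open Run7.h444.SC (Vr Dr dn mu_dn)

variable {k q : ℕ}

theorem dn_lb {K : Set (E k)} (hK : IsCompact K) (hc : Convex ℝ K) (hvol : 0 < volume K) :
    LB (dn K) := by
  have hfin : volume K ≠ ⊤ := hK.measure_lt_top.ne
  have hpos : 0 < (volume K).toReal := ENNReal.toReal_pos hvol.ne' hfin
  have hi : 0 < ((volume K).toReal)⁻¹ := inv_pos.2 hpos
  have hun : mu (dn K) univ = 1 := by
    rw [mu_dn hK hvol, Measure.smul_apply, Measure.restrict_apply_univ, smul_eq_mul,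
      ENNReal.inv_mul_cancel hvol.ne' hfin]
  obtain ⟨R, hR⟩ := hK.isBounded.exists_norm_le
  refine ⟨⟨fun x => indicator_nonneg (fun _ _ => hi.le) x,
    (measurable_const.indicator hK.measurableSet), fun x y t ht ht1 => ?_, ⟨R, fun x hx => ?_⟩,
    ?_, ?_⟩, ?_⟩
  · unfold dn
    by_cases hx : x ∈ K
    · by_cases hy : y ∈ K
      · have hz : (1 - t) • x + t • y ∈ K := hc hx hy (by linarith) ht.le (by ring)
        rw [indicator_of_mem hx, indicator_of_mem hy, indicator_of_mem hz, ← Real.rpow_add hi]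
        simp
      · rw [indicator_of_notMem hy, Real.zero_rpow ht.ne', mul_zero]
        exact indicator_nonneg (fun _ _ => hi.le) _
    · rw [indicator_of_notMem hx, Real.zero_rpow (sub_pos.2 ht1).ne', zero_mul]
      exact indicator_nonneg (fun _ _ => hi.le) _
  · unfold dn
    rw [indicator_of_notMem]
    intro h
    exact absurd (hR x h) (not_le.2 hx)
  · rw [hun]
    exact ENNReal.one_ne_top
  · intro h
    rw [h] at hun
    simp at hun
  · refine ⟨k, K, LinearMap.id, 0, hc, hK, hvol, ?_⟩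
    rw [mu_dn hK hvol]
    simp only [LinearMap.id_coe, id_eq, zero_add]
    exact (Measure.map_id (μ := un K)).symm

/-- the reflections of a body -/
theorem refl_of {K : Set (E k)} (hK : IsCompact K) (hvol : 0 < volume K) {e : Fin q → E k}
    (he : Orthonormal ℝ e) (hinv : ∀ j, ∀ x ∈ K, x - (2 * ⟪e j, x⟫_ℝ) • e j ∈ K) {s : ℝ}
    (hs : ∀ j, ∫ x, ⟪e j, x⟫_ℝ ^ 2 ∂((volume K)⁻¹ • volume.restrict K) ≤ s) :
    ∃ g : Fin q → E k ≃ₗᵢ[ℝ] E k, Refl (dn K) e g s := by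
  have hx := fun j => refl_ex (e j) (he.1 j)
  choose g hg using hx
  refine ⟨g, he.1, fun i j hij => he.2 hij, hg, fun j x => ?_, fun j => ?_⟩
  · have hee : ⟪e j, e j⟫_ℝ = 1 := by rw [real_inner_self_eq_norm_sq, he.1]; norm_num
    have hgg : g j (g j x) = x := by
      rw [hg, hg, inner_sub_right, inner_smul_right, hee]
      module
    unfold dn
    by_cases hxK : x ∈ K
    · rw [indicator_of_mem hxK, indicator_of_mem (by rw [hg]; exact hinv j x hxK)]
    · rw [indicator_of_notMem hxK, indicator_of_notMem]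
      intro h
      apply hxK
      have := hinv j _ h
      rw [← hg, hgg] at this
      exact this
  · rw [mu_dn hK hvol]
    exact hs j

/-- **Isoperimetry from the concentration of invariant sets** -/
theorem main (K : Set (E k)) (hK : IsCompact K) (hc : Convex ℝ K) (hvol : 0 < volume K)
    (e : Fin q → E k) (he : Orthonormal ℝ e)
    (hinv : ∀ j, ∀ x ∈ K, x - (2 * ⟪e j, x⟫_ℝ) • e j ∈ K) (μ : Measure (E k))
    (hμ : μ = (volume K)⁻¹ • volume.restrict K) (r s : ℝ) (hr : 0 < r) (hs : 0 ≤ s)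
    (hcov : ∀ j, ∫ x, ⟪e j, x⟫_ℝ ^ 2 ∂μ ≤ s)
    (hS : ∀ S : Set (E k), MeasurableSet S → (∀ j, ∀ x ∈ S, x - (2 * ⟪e j, x⟫_ℝ) • e j ∈ S) →
      1 / 2 ≤ μ.real S → 1 - 1 / 16000000 ≤ μ.real (Metric.thickening r S))
    (S : Set (E k)) (hS2 : μ S = 1 / 2) :
    1 / 4 ≤ ENNReal.ofReal (Real.sqrt (50 * 24000000) * Real.sqrt (r ^ 2 + s)) *
      liminf (fun ε : ℝ => (μ (Metric.thickening ε S) - μ S) / ENNReal.ofReal ε) (𝓝[>] 0) := by
  have hlb := dn_lb hK hc hvol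
  have hmu := mu_dn hK hvol
  rw [← hμ] at hmu
  have hfin : volume K ≠ ⊤ := hK.measure_lt_top.ne
  have hpos : 0 < (volume K).toReal := ENNReal.toReal_pos hvol.ne' hfin
  have hint : ∀ g : E k → ℝ, ∫ x, g x ∂μ = EV K g := by
    intro g
    rw [hμ, integral_smul_measure, ENNReal.toReal_inv, smul_eq_mul]
    unfold EV
    rw [inv_mul_eq_div]
  have hr2 : 0 < r ^ 2 := by positivity
  obtain ⟨g, hg⟩ := refl_of hK hvol he hinv (s := s + r ^ 2) (fun j => by
    rw [← hμ]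
    exact (hcov j).trans (by linarith))
  have hsym : SymG g (mu (dn K)) (1 / 16000000) r := by
    rw [hmu]
    intro T hT hTg hT2
    exact hS T hT (fun j x hx => by rw [← hg.eq]; exact hTg j x hx) hT2
  have hC : 0 < 24000000 * (r ^ 2 + s) := by positivity
  have h1 := Run7.h444.SC.iso K hK hc hvol (24000000 * (r ^ 2 + s)) hC (fun v L hv hb hL => by
    have hB : BL (max 1 L) v := ⟨hv, fun y => (hb y).trans (le_max_left _ _),
      fun y => (hL y).trans (le_max_right _ _)⟩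
    have h2 := weak hlb hg (by positivity) hr hsym hB hb
    have hD := Run7.h444.SC.Dr_nonneg (ν := mu (dn K)) v
    have h3 : 12000000 * (r ^ 2 + (s + r ^ 2)) * Dr (mu (dn K)) v ≤
        24000000 * (r ^ 2 + s) * Dr (mu (dn K)) v :=
      mul_le_mul_of_nonneg_right (by linarith) hD
    have h4 := h2.trans (add_le_add_right h3 _)
    unfold Vr Dr at h4
    rw [hmu, hint, hint, hint] at h4
    exact h4) μ hμ S hS2
  rw [hS2] at h1
  have e1 : (1 / 2 : ℝ≥0∞) * (1 - 1 / 2) = 1 / 4 := by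
    have e2 : (1 : ℝ≥0∞) - 1 / 2 = 1 / 2 := by
      rw [one_div, ENNReal.one_sub_inv_two]
    rw [e2]
    have e3 : (1 / 2 : ℝ≥0∞) = ENNReal.ofReal (1 / 2) := by
      rw [ENNReal.ofReal_div_of_pos (by norm_num)]
      norm_num
    have e4 : (1 / 4 : ℝ≥0∞) = ENNReal.ofReal (1 / 4) := by
      rw [ENNReal.ofReal_div_of_pos (by norm_num)]
      norm_num
    rw [e3, e4, ← ENNReal.ofReal_mul (by norm_num)]
    norm_num
  rw [e1] at h1
  have e5 : Real.sqrt (50 * (24000000 * (r ^ 2 + s))) =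
      Real.sqrt (50 * 24000000) * Real.sqrt (r ^ 2 + s) := by
    rw [← Real.sqrt_mul (by positivity)]
    congr 1
    ring
  rw [e5] at h1
  rw [hS2]
  exact h1

/-- the second moments of a body in the directions of its reflections -/
theorem mom (K : Set (E k)) (hK : IsCompact K) (hvol : 0 < volume K) (e : E k) (he : ‖e‖ = 1)
    (hinv : ∀ x ∈ K, x - (2 * ⟪e, x⟫_ℝ) • e ∈ K) (m : ℝ) :
    ∫ x, ⟪e, x⟫_ℝ ^ 2 ∂((volume K)⁻¹ • volume.restrict K) ≤
      ∫ x, (⟪e, x⟫_ℝ - m) ^ 2 ∂((volume K)⁻¹ • volume.restrict K) := by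
  obtain ⟨μ, hμ⟩ : ∃ μ, μ = (volume K)⁻¹ • volume.restrict K := ⟨_, rfl⟩
  rw [← hμ]
  have hfin : volume K ≠ ⊤ := hK.measure_lt_top.ne
  have hprob : IsProbabilityMeasure μ := ⟨by
    rw [hμ, Measure.smul_apply, Measure.restrict_apply_univ, smul_eq_mul,
      ENNReal.inv_mul_cancel hvol.ne' hfin]⟩
  have hI : ∀ f : E k → ℝ, Continuous f → Integrable f μ := by
    intro f hf
    rw [hμ]
    exact (hf.continuousOn.integrableOn_compact hK).smul_measure (ENNReal.inv_ne_top.2 hvol.ne')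
  obtain ⟨g, hg⟩ := refl_ex e he
  have hee : ⟪e, e⟫_ℝ = 1 := by rw [real_inner_self_eq_norm_sq, he]; norm_num
  have hgg : ∀ x, g (g x) = x := by
    intro x
    rw [hg, hg, inner_sub_right, inner_smul_right, hee]
    module
  have hmap : ∫ x, ⟪e, g x⟫_ℝ ∂μ = ∫ x, ⟪e, x⟫_ℝ ∂μ := by
    have hmp : MeasurePreserving g volume volume := g.measurePreserving
    have hpre : g ⁻¹' K = K := by
      ext x
      refine ⟨fun h => ?_, fun h => ?_⟩
      · have := hinv (g x) h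
        rw [← hg, hgg] at this
        exact this
      · show g x ∈ K
        rw [hg]
        exact hinv x h
    rw [hμ, integral_smul_measure, integral_smul_measure]
    congr 1
    have := hmp.setIntegral_preimage_emb g.toHomeomorph.measurableEmbedding
      (fun x => ⟪e, x⟫_ℝ) K
    rw [hpre] at this
    exact this
  have h0 : ∫ x, ⟪e, x⟫_ℝ ∂μ = 0 := by
    have e1 : ∀ x, ⟪e, g x⟫_ℝ = -⟪e, x⟫_ℝ := by
      intro x
      rw [hg, inner_sub_right, inner_smul_right, hee]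
      ring
    simp only [e1] at hmap
    rw [integral_neg] at hmap
    linarith
  have i1 : Integrable (fun x => ⟪e, x⟫_ℝ ^ 2) μ := hI _ (by fun_prop)
  have i2 : Integrable (fun x => 2 * m * ⟪e, x⟫_ℝ) μ := hI _ (by fun_prop)
  have e2 : (fun x : E k => (⟪e, x⟫_ℝ - m) ^ 2) =
      fun x => (⟪e, x⟫_ℝ ^ 2 - 2 * m * ⟪e, x⟫_ℝ) + m ^ 2 := by
    funext x
    ring
  have e3 : ∫ x, ((⟪e, x⟫_ℝ ^ 2 - 2 * m * ⟪e, x⟫_ℝ) + m ^ 2) ∂μ =
      (∫ x, (⟪e, x⟫_ℝ ^ 2 - 2 * m * ⟪e, x⟫_ℝ) ∂μ) + ∫ _x, m ^ 2 ∂μ :=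
    integral_add (i1.sub i2) (integrable_const _)
  have e4 : ∫ x, (⟪e, x⟫_ℝ ^ 2 - 2 * m * ⟪e, x⟫_ℝ) ∂μ =
      (∫ x, ⟪e, x⟫_ℝ ^ 2 ∂μ) - ∫ x, 2 * m * ⟪e, x⟫_ℝ ∂μ := integral_sub i1 i2
  rw [e2, e3, e4, integral_const_mul, h0, integral_const]
  simp only [probReal_univ, smul_eq_mul]
  nlinarith [sq_nonneg m]

/-- halfspaces control the second moments -/
theorem half : ∃ C : ℝ, 0 < C ∧ ∀ (k : ℕ) (K : Set (E k)), IsCompact K → Convex ℝ K →
    (interior K).Nonempty → ∀ e : E k, ‖e‖ = 1 → (∀ x ∈ K, x - (2 * ⟪e, x⟫_ℝ) • e ∈ K) →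
    ∀ μ : Measure (E k), μ = (volume K)⁻¹ • volume.restrict K → ∀ t : ℝ, 0 < t →
    (∀ b : ℝ, ENNReal.ofReal t * min (μ {x | ⟪e, x⟫_ℝ ≤ b}) (1 - μ {x | ⟪e, x⟫_ℝ ≤ b}) ≤
      liminf (fun ε : ℝ => (μ (Metric.thickening ε {x | ⟪e, x⟫_ℝ ≤ b}) - μ {x | ⟪e, x⟫_ℝ ≤ b}) /
        ENNReal.ofReal ε) (𝓝[>] 0)) → ∫ x, ⟪e, x⟫_ℝ ^ 2 ∂μ ≤ C / t ^ 2 := by
  obtain ⟨C, hC, HH⟩ := Pool.Agent.Y211.FF.half
  refine ⟨C, hC, fun k K hK hc hint e he hinv μ hμ t ht h => ?_⟩
  have hvol : 0 < volume K :=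
    lt_of_lt_of_le (isOpen_interior.measure_pos volume hint) (measure_mono interior_subset)
  obtain ⟨m, hm⟩ := HH (Fin k) K hK hc hint μ hμ e (ENNReal.ofReal t) he h
  have hint' : Integrable (fun x => (⟪e, x⟫_ℝ - m) ^ 2) μ := by
    rw [hμ]
    refine Integrable.smul_measure ?_ (ENNReal.inv_ne_top.2 hvol.ne')
    have : Continuous fun x : E k => (⟪e, x⟫_ℝ - m) ^ 2 := by fun_prop
    exact this.continuousOn.integrableOn_compact hK
  rw [← ofReal_integral_eq_lintegral_ofReal hint' (Eventually.of_forall fun x => sq_nonneg _),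
    ← ENNReal.ofReal_pow ht.le, ← ENNReal.ofReal_mul (by positivity),
    ENNReal.ofReal_le_ofReal_iff hC.le] at hm
  rw [le_div_iff₀ (by positivity)]
  have h2 := mom K hK hvol e he hinv m
  rw [← hμ] at h2
  have h3 := mul_le_mul_of_nonneg_left h2 (by positivity : 0 ≤ t ^ 2)
  linarith

end Run7.h444.RC
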